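import Pool.Agent.Helper62.PM.St2

/-!
# Project PM: module XI (the operator of a zonal distribution is symmetric)
-/

set_option autoImplicit false

open MeasureTheory Metric Set Filter Topology Polynomial
open scoped RealInnerProductSpace ContDiff

namespace Pool.Agent.Helper21.PM

open Pool.Agent.Helper62.PM
open Pool.Agent.Helper62.Mink

private lemma fderiv_hom1 {n : ℕ} {h : E n → ℝ} (hh : S1 h) {c : ℝ} (hc : 0 < c) (x : E n) :
    fderiv ℝ h (c • x) = fderiv ℝ h x := by
  have h1 : fderiv ℝ (fun y => h (c • y)) x = c • fderiv ℝ h (c • x) := fderiv_comp_smul c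
  have h2 : (fun y => h (c • y)) = c • h := by
    funext y; rw [hh.hom c hc.le y]; rfl
  rw [h2, fderiv_const_smul_field] at h1
  exact (smul_right_injective _ hc.ne' h1).symm

/-- a Lipschitz constant on the sphere -/
private lemma lip {n : ℕ} {F : E n → ℝ} (hF : S1 F) :
    ∃ L : ℝ, 0 ≤ L ∧ ∀ u w : E n, ‖u‖ = 1 → ‖w‖ = 1 → |F w - F u| ≤ L * ‖w - u‖ := by
  have hdc : ContinuousOn (fderiv ℝ F) ({0}ᶜ : Set (E n)) :=
    hF.smooth.continuousOn_fderiv_of_isOpen isOpen_compl_singleton (by simp)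
  have hsub : sphere (0 : E n) 1 ⊆ ({0}ᶜ : Set (E n)) := by
    intro x hx h0
    rw [mem_singleton_iff] at h0
    rw [mem_sphere_zero_iff_norm, h0, norm_zero] at hx
    exact zero_ne_one hx
  obtain ⟨M, hM⟩ := (isCompact_sphere (0 : E n) 1).exists_bound_of_continuousOn (hdc.mono hsub)
  obtain ⟨B, hB⟩ := (isCompact_sphere (0 : E n) 1).exists_bound_of_continuousOn
    (hF.smooth.continuousOn.mono hsub)
  refine ⟨|M| + |B|, by positivity, fun u w hu hw => ?_⟩
  by_cases hwu : w = -u
  · have e1 : ‖w - u‖ = 2 := by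
      rw [hwu, show -u - u = (-2 : ℝ) • u by module, norm_smul, hu]
      norm_num
    have b1 := hB u (by simpa using hu)
    have b2 := hB w (by simpa using hw)
    rw [Real.norm_eq_abs] at b1 b2
    have b3 := abs_sub (F w) (F u)
    have b4 := le_abs_self B
    have b5 := abs_nonneg M
    rw [e1]
    linarith
  · have hne : ∀ x ∈ segment ℝ u w, x ≠ 0 := by
      rintro x ⟨a, b, ha, hb, hab, rfl⟩ h0
      have h1 : a • u = -(b • w) := eq_neg_of_add_eq_zero_left h0
      have h2 : ‖a • u‖ = ‖-(b • w)‖ := by rw [h1]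
      rw [norm_neg, norm_smul, norm_smul, hu, hw, Real.norm_of_nonneg ha, Real.norm_of_nonneg hb,
        mul_one, mul_one] at h2
      have ha2 : a = 1 / 2 := by linarith
      have hb2 : b = 1 / 2 := by linarith
      apply hwu
      rw [ha2, hb2] at h1
      have h3 : (2 : ℝ) • ((1 / 2 : ℝ) • u) = (2 : ℝ) • (-((1 / 2 : ℝ) • w)) := by rw [h1]
      rw [smul_smul, smul_neg, smul_smul] at h3
      norm_num at h3
      rw [h3, neg_neg]
    have key := (convex_segment u w).norm_image_sub_le_of_norm_fderiv_le (𝕜 := ℝ) (f := F)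
      (C := |M|) (fun x hx => (hF.smooth.contDiffAt
        (isOpen_compl_singleton.mem_nhds (hne x hx))).differentiableAt (by simp))
      (fun x hx => by
        have hx0 := hne x hx
        have hxn : 0 < ‖x‖ := norm_pos_iff.2 hx0
        have e2 : fderiv ℝ F x = fderiv ℝ F (‖x‖⁻¹ • x) :=
          (fderiv_hom1 hF (inv_pos.2 hxn) x).symm
        rw [e2]
        refine (hM _ ?_).trans (le_abs_self M)
        rw [mem_sphere_zero_iff_norm, norm_smul, norm_inv, norm_norm, inv_mul_cancel₀ hxn.ne'])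
      (left_mem_segment ℝ u w) (right_mem_segment ℝ u w)
    rw [Real.norm_eq_abs] at key
    refine key.trans ?_
    have := mul_nonneg (abs_nonneg B) (norm_nonneg (w - u))
    linarith

private lemma ci {n : ℕ} {f : sphere (0 : E n) 1 → ℝ} (hf : Continuous f) :
    Integrable f (sg n) :=
  hf.integrable_of_hasCompactSupport (HasCompactSupport.of_compactSpace f)

private lemma cm {n : ℕ} {f g : sphere (0 : E n) 1 → ℝ} (hf : Continuous f) (hg : Continuous g) :
    Integrable (fun w => f w * g w) (sg n) :=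
  ci (hf.mul hg)

private lemma conv_unit {n : ℕ} (F : E n → ℝ) (p : ℝ[X]) {u : E n} (hu : ‖u‖ = 1) :
    conv F (fun t => p.eval t) u =
      ∫ w : sphere (0 : E n) 1, F (w : E n) * p.eval (inner ℝ u (w : E n)) ∂(sg n) := by
  unfold conv
  simp only [hu, one_mul, div_one]

private lemma inner_mem {n : ℕ} {u w : E n} (hu : ‖u‖ = 1) (hw : ‖w‖ = 1) :
    (inner ℝ u w : ℝ) ∈ Icc (-1 : ℝ) 1 := by
  have h := abs_real_inner_le_norm u w
  rw [hu, hw, one_mul] at h
  exact abs_le.1 h

private lemma conv_near {n : ℕ} {F : E n → ℝ} (hF : Continuous F) {L : ℝ}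
    (hL : 0 ≤ L) (hl : ∀ u w : E n, ‖u‖ = 1 → ‖w‖ = 1 → |F w - F u| ≤ L * ‖w - u‖) {p : ℝ[X]}
    {ε : ℝ} (hp : ∀ t ∈ Icc (-1 : ℝ) 1, 0 ≤ p.eval t) {u : E n} (hu : ‖u‖ = 1)
    (h1 : ∫ w : sphere (0 : E n) 1, p.eval (inner ℝ u (w : E n)) ∂(sg n) = 1)
    (h2 : ∫ w : sphere (0 : E n) 1, ‖(w : E n) - u‖ * p.eval (inner ℝ u (w : E n)) ∂(sg n) ≤ ε) :
    |conv F (fun t => p.eval t) u - F u| ≤ L * ε := by
  rw [conv_unit F p hu]
  have hsub : Continuous (fun w : sphere (0 : E n) 1 => (w : E n)) := continuous_subtype_val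
  have hpc : Continuous (fun w : sphere (0 : E n) 1 => p.eval (inner ℝ u (w : E n))) :=
    p.continuous.comp (continuous_const.inner hsub)
  have hFc : Continuous (fun w : sphere (0 : E n) 1 => F (w : E n)) := hF.comp hsub
  have e : (∫ w : sphere (0 : E n) 1, F (w : E n) * p.eval (inner ℝ u (w : E n)) ∂(sg n)) - F u =
      ∫ w : sphere (0 : E n) 1, (F (w : E n) - F u) * p.eval (inner ℝ u (w : E n)) ∂(sg n) := by
    have e1 : F u = ∫ w : sphere (0 : E n) 1, F u * p.eval (inner ℝ u (w : E n)) ∂(sg n) := by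
      rw [integral_const_mul, h1, mul_one]
    conv_lhs => rw [e1]
    rw [← integral_sub (cm hFc hpc) (cm continuous_const hpc)]
    refine integral_congr_ae (Filter.Eventually.of_forall fun w => ?_)
    simp only
    ring
  rw [e]
  have h3 : |∫ w : sphere (0 : E n) 1, (F (w : E n) - F u) * p.eval (inner ℝ u (w : E n)) ∂(sg n)| ≤
      ∫ w : sphere (0 : E n) 1, L * (‖(w : E n) - u‖ * p.eval (inner ℝ u (w : E n))) ∂(sg n) := by
    refine (abs_integral_le_integral_abs).trans ?_
    refine integral_mono (ci (((hFc.sub continuous_const).mul hpc).abs))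
      (ci (continuous_const.mul (((hsub.sub continuous_const).norm).mul hpc))) fun w => ?_
    have hw : ‖(w : E n)‖ = 1 := by simp
    have hpos := hp _ (inner_mem hu hw)
    simp only
    rw [abs_mul, abs_of_nonneg hpos, ← mul_assoc]
    exact mul_le_mul_of_nonneg_right (hl u w hu hw) hpos
  refine h3.trans ?_
  rw [integral_const_mul]
  exact mul_le_mul_of_nonneg_left h2 hL

theorem hXI : StD → StXA → StXF → StXG → StXH → StXI := by
  intro hD hXA hXF hXG hXH n e μ A N C hn he hZ hC hA φ ψ hφ hψ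
  obtain ⟨-, hA2, hA3, -, -⟩ := hXA n
  obtain ⟨hD1, hD2, -, -, hD5⟩ := hD n
  have hsub : Continuous (fun w : sphere (0 : E n) 1 => (w : E n)) := continuous_subtype_val
  -- approximation
  have key : ∀ F : E n → ℝ, S1 F → ∃ L : ℝ, 0 ≤ L ∧ ∀ (ε : ℝ) (p : ℝ[X]),
      (∀ t ∈ Icc (-1 : ℝ) 1, 0 ≤ p.eval t) →
      (∀ u : E n, ‖u‖ = 1 → ∫ w : sphere (0 : E n) 1, p.eval (inner ℝ u (w : E n)) ∂(sg n) = 1 ∧
        ∫ w : sphere (0 : E n) 1, ‖(w : E n) - u‖ * p.eval (inner ℝ u (w : E n)) ∂(sg n) ≤ ε) →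
      0 ≤ ε → ∀ x : E n, ‖x‖ = 1 → |A (conv F (fun t => p.eval t)) x - A F x| ≤ L * ε := by
    intro F hF
    choose Lw hLw0 hLw using fun w => lip (hA2 w F hF)
    have hfin : {w : List (Fin n × Fin n) | w.length ≤ N}.Finite := List.finite_length_le _ _
    refine ⟨C * ∑ w ∈ hfin.toFinset, Lw w, mul_nonneg hC (Finset.sum_nonneg fun w _ => hLw0 w),
      fun ε p hp hpu hε x hx => ?_⟩
    have hS : S1 (conv F (fun t => p.eval t)) := (hXG n p).1 F (hD5 F hF).1
    have hN : S1 (fun z => (-1) * F z) := (hD2 (-1) F hF).1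
    have hT : S1 (fun z => conv F (fun t => p.eval t) z + (-1) * F z) := (hD1 _ _ hS hN).1
    have hBd : Bd N (fun z => conv F (fun t => p.eval t) z + (-1) * F z)
        ((∑ w ∈ hfin.toFinset, Lw w) * ε) := by
      intro w hw y hy
      have hy0 : y ≠ 0 := by
        intro h0
        rw [h0, norm_zero] at hy
        exact zero_ne_one hy
      rw [(hA3 w _ _ 1 hS hN y hy0).1, (hA3 w F F (-1) hF hF y hy0).2, (hXG n p).2 F w y hF hy0]
      have h1 := conv_near (hD5 _ (hA2 w F hF)).1 (hLw0 w) (hLw w) hp hy (hpu y hy).1 (hpu y hy).2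
      have h2 : Lw w ≤ ∑ w ∈ hfin.toFinset, Lw w :=
        Finset.single_le_sum (fun w _ => hLw0 w) (hfin.mem_toFinset.2 hw)
      have e1 : conv (Xw w F) (fun t => p.eval t) y + -1 * Xw w F y =
          conv (Xw w F) (fun t => p.eval t) y - Xw w F y := by ring
      rw [e1]
      exact h1.trans (mul_le_mul_of_nonneg_right h2 hε)
    have h3 := hA.bound _ hT _ hBd x
    rw [hA.add _ _ hS hN x, hA.smul (-1) F hF x, hx, mul_one] at h3
    have e2 : A (conv F (fun t => p.eval t)) x + -1 * A F x =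
        A (conv F (fun t => p.eval t)) x - A F x := by ring
    rw [e2] at h3
    rw [mul_assoc]
    exact h3
  obtain ⟨L1, hL1, k1⟩ := key φ hφ
  obtain ⟨L2, hL2, k2⟩ := key ψ hψ
  have cφ : Continuous φ := (hD5 φ hφ).1
  have cψ : Continuous ψ := (hD5 ψ hψ).1
  have hφs : Continuous (fun w : sphere (0 : E n) 1 => φ (w : E n)) := cφ.comp hsub
  have hψs : Continuous (fun w : sphere (0 : E n) 1 => ψ (w : E n)) := cψ.comp hsub
  -- the smoothed identity
  have swap : ∀ p : ℝ[X], ∫ w : sphere (0 : E n) 1, A (conv φ (fun t => p.eval t)) (w : E n) *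
      ψ (w : E n) ∂(sg n) = ∫ w : sphere (0 : E n) 1, φ (w : E n) *
        A (conv ψ (fun t => p.eval t)) (w : E n) ∂(sg n) := by
    intro p
    obtain ⟨g, hg, hgA⟩ := hXH n e μ A N C hn he hZ hA p
    have e1 : ∀ x : sphere (0 : E n) 1, A (conv φ (fun t => p.eval t)) (x : E n) * ψ (x : E n) =
        ∫ w : sphere (0 : E n) 1, φ (w : E n) * g (inner ℝ (x : E n) (w : E n)) * ψ (x : E n)
          ∂(sg n) := by
      intro x
      rw [hgA φ cφ x (by simp), integral_mul_const]
    have e2 : ∀ w : sphere (0 : E n) 1, φ (w : E n) * A (conv ψ (fun t => p.eval t)) (w : E n) =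
        ∫ x : sphere (0 : E n) 1, φ (w : E n) * g (inner ℝ (x : E n) (w : E n)) * ψ (x : E n)
          ∂(sg n) := by
      intro w
      rw [hgA ψ cψ w (by simp), ← integral_const_mul]
      refine integral_congr_ae (Filter.Eventually.of_forall fun x => ?_)
      simp only
      rw [real_inner_comm]
      ring
    simp_rw [e1, e2]
    refine integral_integral_swap (f := fun x w : sphere (0 : E n) 1 =>
      φ (w : E n) * g (inner ℝ (x : E n) (w : E n)) * ψ (x : E n)) ?_
    have hc : Continuous (Function.uncurry fun x w : sphere (0 : E n) 1 =>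
        φ (w : E n) * g (inner ℝ (x : E n) (w : E n)) * ψ (x : E n)) := by
      have a1 : Continuous fun q : sphere (0 : E n) 1 × sphere (0 : E n) 1 => (q.1 : E n) :=
        hsub.comp continuous_fst
      have a2 : Continuous fun q : sphere (0 : E n) 1 × sphere (0 : E n) 1 => (q.2 : E n) :=
        hsub.comp continuous_snd
      exact ((cφ.comp a2).mul (hg.comp (a1.inner a2))).mul (cψ.comp a1)
    exact hc.integrable_of_hasCompactSupport (HasCompactSupport.of_compactSpace _)
  -- the error terms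
  have cA : ∀ F : E n → ℝ, S1 F → Continuous (fun w : sphere (0 : E n) 1 => A F (w : E n)) :=
    fun F hF => (hA.cont F hF).comp hsub
  set I1 := ∫ w : sphere (0 : E n) 1, A φ (w : E n) * ψ (w : E n) ∂(sg n) with hI1
  set I2 := ∫ w : sphere (0 : E n) 1, φ (w : E n) * A ψ (w : E n) ∂(sg n) with hI2
  set P := ∫ w : sphere (0 : E n) 1, |ψ (w : E n)| ∂(sg n) with hP
  set Q := ∫ w : sphere (0 : E n) 1, |φ (w : E n)| ∂(sg n) with hQ
  have hP0 : 0 ≤ P := integral_nonneg fun w => abs_nonneg _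
  have hQ0 : 0 ≤ Q := integral_nonneg fun w => abs_nonneg _
  have main : ∀ ε : ℝ, 0 < ε → |I1 - I2| ≤ (L1 * P + L2 * Q) * ε := by
    intro ε hε
    obtain ⟨p, hp, hpu⟩ := hXF n (by omega) ε hε
    have hS1 : S1 (conv φ (fun t => p.eval t)) := (hXG n p).1 φ cφ
    have hS2 : S1 (conv ψ (fun t => p.eval t)) := (hXG n p).1 ψ cψ
    have d1 : |(∫ w : sphere (0 : E n) 1, A (conv φ (fun t => p.eval t)) (w : E n) *
        ψ (w : E n) ∂(sg n)) - I1| ≤ L1 * ε * P := by
      rw [hI1, ← integral_sub (cm (cA _ hS1) hψs) (cm (cA _ hφ) hψs)]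
      refine (abs_integral_le_integral_abs).trans ?_
      rw [hP, ← integral_const_mul]
      refine integral_mono (ci ((((cA _ hS1).mul hψs).sub ((cA _ hφ).mul hψs)).abs))
        (ci (continuous_const.mul hψs.abs)) fun w => ?_
      simp only
      rw [← sub_mul, abs_mul]
      exact mul_le_mul_of_nonneg_right (k1 ε p hp hpu hε.le w (by simp)) (abs_nonneg _)
    have d2 : |(∫ w : sphere (0 : E n) 1, φ (w : E n) * A (conv ψ (fun t => p.eval t)) (w : E n)
        ∂(sg n)) - I2| ≤ L2 * ε * Q := by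
      rw [hI2, ← integral_sub (cm hφs (cA _ hS2)) (cm hφs (cA _ hψ))]
      refine (abs_integral_le_integral_abs).trans ?_
      rw [hQ, ← integral_const_mul]
      refine integral_mono (ci (((hφs.mul (cA _ hS2)).sub (hφs.mul (cA _ hψ))).abs))
        (ci (continuous_const.mul hφs.abs)) fun w => ?_
      simp only
      rw [← mul_sub, abs_mul, mul_comm]
      exact mul_le_mul_of_nonneg_right (k2 ε p hp hpu hε.le w (by simp)) (abs_nonneg _)
    rw [swap p] at d1
    have d3 := abs_sub_abs_le_abs_sub I1 I2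
    have d4 := abs_le.1 d1
    have d5 := abs_le.1 d2
    rw [abs_le]
    constructor <;> nlinarith [d4.1, d4.2, d5.1, d5.2]
  by_contra hne
  have hpos : 0 < |I1 - I2| := abs_pos.2 (sub_ne_zero.2 hne)
  have hK : 0 < L1 * P + L2 * Q + 1 := by
    have := mul_nonneg hL1 hP0
    have := mul_nonneg hL2 hQ0
    linarith
  have h := main (|I1 - I2| / (L1 * P + L2 * Q + 1)) (div_pos hpos hK)
  rw [mul_div_assoc', le_div_iff₀ hK] at h
  nlinarith
end Pool.Agent.Helper21.PM
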